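import Pool.Agent.H.MP_c4b7b1_co.F

namespace Pool.Agent.Results.MP_c4b7b1_co.No

/-- labelled graphs on n vertices with maximum degree at most D -/
def Gn (D n : ℕ) : Set (SimpleGraph (Fin n)) := {G | ∀ v, (G.neighborSet v).ncard ≤ D}

/-- those whose chromatic index (chromatic number of the line graph) equals D + 1 -/
def Hn (D n : ℕ) : Set (SimpleGraph (Fin n)) :=
  {G | G ∈ Gn D n ∧ G.lineGraph.chromaticNumber = (D + 1 : ℕ)}

open Pool.Agent.H.MP_c4b7b1_co Pool.Agent.H.MP_e84969_co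

theorem result (D : ℕ) (hD : 3 ≤ D) : ∃ c : ℝ, 0 < c ∧ ∃ N : ℕ, ∀ n : ℕ, Even n → N ≤ n →
    ((Hn D n).ncard : ℝ) / (Gn D n).ncard ≤ 1 - c := by
  classical
  obtain ⟨c, c0, h⟩ := main' D hD
  obtain ⟨N, h⟩ := Filter.eventually_atTop.1 h
  refine ⟨c, c0, 2 * N, fun n ⟨m, hm⟩ hn => ?_⟩
  obtain rfl : n = 2 * m := by omega
  have e : ∀ G : SimpleGraph (Fin (2 * m)), G ∈ Gn D (2 * m) ↔ ∀ v, dg G v ≤ D := fun G =>
    forall_congr' (fun v => by
      have := cnt_adj G v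
      rw [← Nat.cast_le (α := ℝ), ← Nat.cast_le (α := ℝ) (m := dg G v), ← this]; rfl)
  have e1 : ((Gn D (2 * m)).ncard : ℝ) =
      cnt (fun G : SimpleGraph (Fin (2 * m)) => ∀ v, dg G v ≤ D) := by
    unfold cnt; congr 2; ext G; exact e G
  have p : (0 : ℝ) < (Gn D (2 * m)).ncard := by
    have : (⊥ : SimpleGraph (Fin (2 * m))) ∈ Gn D (2 * m) := fun v => by simp
    exact_mod_cast (Set.ncard_pos (Set.toFinite _)).2 ⟨_, this⟩
  have k : ((Hn D (2 * m)).ncard : ℝ) + cnt (fun G : SimpleGraph (Fin (2 * m)) =>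
      (∀ v, dg G v ≤ D) ∧ ECd D G) ≤ (Gn D (2 * m)).ncard := by
    unfold cnt
    rw [← Nat.cast_add, ← Set.ncard_union_eq (Set.disjoint_left.2 ?_), Nat.cast_le]
    · exact Set.ncard_le_ncard (Set.union_subset (fun G a => a.1) (fun G a => (e G).2 a.1))
    rintro G ⟨-, a⟩ ⟨-, col, b⟩
    have : G.lineGraph.Colorable D := by
      refine ⟨SimpleGraph.Coloring.mk (fun x => col x.1) ?_⟩
      rintro ⟨x, hx⟩ ⟨y, hy⟩ z w
      obtain ⟨z1, u, z2, z3⟩ := SimpleGraph.lineGraph_adj_iff_exists.1 z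
      obtain ⟨v, rfl⟩ := Sym2.mem_iff_exists.1 z2
      obtain ⟨t, rfl⟩ := Sym2.mem_iff_exists.1 z3
      obtain rfl := b u v t hx hy w
      exact z1 rfl
    have := this.chromaticNumber_le
    rw [a, Nat.cast_le] at this
    omega
  rw [div_le_iff₀ p]
  have := h m (by omega)
  rw [← e1] at this
  linarith

end Pool.Agent.Results.MP_c4b7b1_co.No
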